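import Pool.Agent.N110.IM.Img
import Pool.Agent.N110.IM.Defs
import Pool.Agent.N110.RK.Main
import Pool.Agent.N110.RK.Stat
import Pool.Agent.N110.Can
import Pool.Agent.N110.NV.Fin
import Pool.Agent.R887.NefP
import Pool.Agent.R887.Exc

/-!
Pairs which are dominated by a pair with an abelian group of birational self-maps of large growth
rank: abundance.
-/

set_option autoImplicit false

open FF Pool.Agent.W602.GT Pool.Agent.Y172 Pool.Agent.R887 Pool.Agent.N110

/-- Let `X'` be a normal projective variety of dimension `n ≥ 1`, with generic point `y'`, and `Δ'`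
a `ℚ`-divisor on `X'`. Let `ℤ ^ r` act by birational self-maps `f_v` of `X'` (commuting birational
self-maps `f_1, ..., f_r`), given by the automorphisms `φ v = f_v^*` of the function field. Suppose
that they preserve `K_X' + Δ'` (over the prime divisors of `X'` the divisor `f_v^* (K_X' + Δ')` is at
most `K_X' + Δ'`), or that `Δ' = 0` and `X'` has canonical singularities (no condition on the maps
then). Let `s ≥ 1` be at most the growth rank of the action: the degrees `f_v^* H · H ^ (n - 1)` grow
subexponentially only along subspaces of `ℝ ^ r` of codimension at least `s`. For instance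
`s = r ≥ 1` if the degrees are at least `c exp (δ |v|)` for some `c, δ > 0`.

Let `(X, Δ)` be a pair, `Δ ≥ 0` (for instance a klt pair), which is dominated by `(X', Δ')`: there is
a dominant rational map `X' ⇢ X`, generically finite, given by the homomorphism `π` of the function
fields, such that the pull back of `K_X + Δ` is at most `K_X' + Δ'` over the prime divisors of `X'`.
For instance let `X` be the quotient of `X'` by a finite group, with the branch divisor `Δ` and
`Δ' = 0`; the group has nothing to do with the maps `f_v`. Then `s ≤ n - 1`, the numerical dimension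
of `K_X + Δ` is at most `n - 1 - s`, and so is the Kodaira dimension; if the Kodaira dimension is at
least `n - 1 - s` then the Kodaira dimension and the numerical dimension of `K_X + Δ` are equal. If
`s = n - 1`, `K_X + Δ` is nef and the irregularity of `X` is zero, then they are zero and
`m (K_X + Δ)` is trivial for some `m ≥ 1`: it has a section `ω ≠ 0` without zeros. -/
theorem Pool.Agent.Results.MP_9a2ae6_ag.CoveredAbelianRank.result
    {K K' : Type} [Field K] [Algebra ℂ K] [Field K'] [Algebra ℂ K'] {N N' n : ℕ}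
    {y : Fin (N + 1) → K} {y' : Fin (N' + 1) → K'} (hy : NormalModel y) (hy' : NormalModel y')
    (hn : Algebra.trdeg ℂ K = n) (hn' : Algebra.trdeg ℂ K' = n) (hn0 : 0 < n)
    {Δ' : Place ℂ K' → ℚ} (hΔ' : {P | IsPrimeDivisor y' P ∧ Δ' P ≠ 0}.Finite) {r s : ℕ}
    (hs : 0 < s) {φ : (Fin r → ℤ) → (K' ≃ₐ[ℂ] K')} (hφ : ∀ u v, φ (u + v) = φ u * φ v)
    (hP : (∀ v, PullLe (φ v) y' n Δ') ∨ (Δ' = 0 ∧ Canonical y' n))
    (hrank : GrowthRankGe φ y' n s ∨ (s = r ∧ ExpGrowth φ y' n))
    {Δ : Place ℂ K → ℚ} (hΔ : Effective y Δ) (π : K →ₐ[ℂ] K')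
    (hπ : IM.ImagePullLe π y n Δ y' Δ') :
    s < n ∧ NumDimLt y n Δ (n - s) ∧ ¬ KappaGe y n Δ (n - s) ∧
      (KappaGe y n Δ (n - s - 1) → Abundant y n Δ) ∧
      (s + 1 = n → LogNef y n Δ → IrregularityZero y →
        (kodairaDim y n Δ = ((0 : ℕ) : WithBot ℕ) ∧
          ∀ A, Effective y A → Integral y A → numericalDim y n Δ A = ((0 : ℕ) : EReal)) ∧
        ∃ m : ℕ, 1 ≤ m ∧ ∃ ω : (Fin n → Derivation ℂ K K) → K, IsSection y n m (m • Δ) ω ∧
          ω ≠ 0 ∧ ∀ P, IsPrimeDivisor y P → OrdEq P ω (-(m * Δ P))) := by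
  have hP' : ∀ v, PullLe (φ v) y' n Δ' := by
    rcases hP with h | ⟨rfl, hcan'⟩
    · exact h
    · exact fun v => pullLe_canonical hy' hn' hcan' (φ v)
  have hrank' : GrowthRankGe φ y' n s := by
    rcases hrank with h | ⟨rfl, h⟩
    · exact h
    · exact RK.growthRank_of_exp h
  obtain ⟨h1, h2'⟩ := RK.rank_main hy' hn' hn0 hΔ' hs hφ hP' hrank'
  have h2 := IM.numDimLt_img hy hy' hn hn' π hπ (Nat.sub_le _ _) h2'
  refine ⟨h1, h2, ?_, fun h => ⟨n - s - 1, h, ?_⟩, ?_⟩
  · rintro ⟨m, hm, ω, E, hω, h0, hind⟩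
    exact kappa_lt hy hn (Nat.sub_le _ _) h2 hm hω h0 hind
  · rwa [show n - s - 1 + 1 = n - s by omega]
  · intro h3 hnef hq
    rw [show n - s = 1 by omega] at h2
    obtain ⟨m, hm, ω, hω0, hω⟩ := NV.nonvanishing hy hn hn0 hΔ.2 (NV.psef_of_nef hy hn hn0 hnef)
      h2 hq
    exact ⟨abundance_zero hy hn hn0 hΔ h2 hm hω hω0, m, hm, ω, hω, hω0,
      fun P hP => nef_trivialP hy hn hn0 h2 hnef hm hω hω0 P hP⟩
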