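import Pool.Agent.N110.IM.Img
import Pool.Agent.N110.IM.Defs
import Pool.Agent.N110.QG.Fin
import Pool.Agent.R887.Exc

/-!
Pairs which are dominated by a pair with birational self-maps whose degrees grow more than
quadratically: a bound for the numerical dimension, and abundance.
-/

set_option autoImplicit false

open FF Pool.Agent.W602.GT Pool.Agent.Y172 Pool.Agent.R887 Pool.Agent.N110

/-- Let `X'` be a normal projective variety of dimension `n ≥ 2` with generic point `y'`, and `Δ'` a
`ℚ`-divisor on `X'`. Let `S` be a set of birational self-maps `f` of `X'` (a finite set, for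
instance), given by the automorphisms `φ = f^*` of the function field, of bounded degrees, which
preserve `K_X' + Δ'` over the prime divisors of `X'`, or let `Δ' = 0` and let `X'` have canonical
singularities; then `S` may be any set of birational self-maps of bounded degrees.

Let `(X, Δ)` be a pair (for instance a klt pair), which is dominated by `(X', Δ')`: there is a
dominant rational map `X' ⇢ X`, generically finite, given by the homomorphism `π` of the function
fields, such that the pull back of `K_X + Δ` is at most `K_X' + Δ'` over the prime divisors of `X'`.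
For instance let `X` be the quotient of `X'` by a finite group, with the branch divisor `Δ` and
`Δ' = 0`; the group has nothing to do with the maps in `S`. If the numerical dimension of `K_X + Δ` is
at least `n - 1`, then the degrees of the products of `l` maps of `S` are at most
`A * (l + 1) ^ 2`, with a constant `A` for all `l`. So let there be no such constant (for instance,
let the degrees of the iterates of a single map of `S` grow faster). Then the numerical dimension of
`K_X + Δ` is at most `n - 2`, and so is the Kodaira dimension; if the Kodaira dimension is at least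
`n - 2` then the Kodaira dimension and the numerical dimension of `K_X + Δ` are equal. -/
theorem Pool.Agent.Results.MP_9a2ae6_ag.CoveredQuadratic.result
    {K K' : Type} [Field K] [Algebra ℂ K] [Field K'] [Algebra ℂ K'] {N N' n : ℕ}
    {y : Fin (N + 1) → K} {y' : Fin (N' + 1) → K'} (hy : NormalModel y) (hy' : NormalModel y')
    (hn : Algebra.trdeg ℂ K = n) (hn' : Algebra.trdeg ℂ K' = n) (hn2 : 2 ≤ n)
    {Δ' : Place ℂ K' → ℚ} (hΔ' : {P | IsPrimeDivisor y' P ∧ Δ' P ≠ 0}.Finite)
    {S : Set (K' ≃ₐ[ℂ] K')} {B : ℕ} (hB : ∀ φ ∈ S, mixedDegree φ y' n 1 ≤ B)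
    (h : (∀ φ ∈ S, PullLe φ y' n Δ' ∧ PullLe φ⁻¹ y' n Δ') ∨ (Δ' = 0 ∧ Canonical y' n))
    {Δ : Place ℂ K → ℚ} (π : K →ₐ[ℂ] K')
    (hπ : IM.ImagePullLe π y n Δ y' Δ') :
    (¬ NumDimLt y n Δ (n - 1) → ∃ A : ℝ, ∀ w : List (K' ≃ₐ[ℂ] K'), (∀ φ ∈ w, φ ∈ S) →
      mixedDegree w.prod y' n 1 ≤ ENNReal.ofReal (A * (w.length + 1) ^ 2)) ∧
    ((∀ A : ℝ, ∃ w : List (K' ≃ₐ[ℂ] K'), (∀ φ ∈ w, φ ∈ S) ∧
      ENNReal.ofReal (A * (w.length + 1) ^ 2) < mixedDegree w.prod y' n 1) →
      NumDimLt y n Δ (n - 1) ∧ ¬ KappaGe y n Δ (n - 1) ∧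
        (KappaGe y n Δ (n - 2) → Abundant y n Δ)) := by
  have hle : n - 1 ≤ n := Nat.sub_le _ _
  have h0 := QG.quadratic_growth hy' hn' hn2 hΔ' h hB
  have h1 : ¬ NumDimLt y n Δ (n - 1) → ∃ A : ℝ, ∀ w : List (K' ≃ₐ[ℂ] K'), (∀ φ ∈ w, φ ∈ S) →
      mixedDegree w.prod y' n 1 ≤ ENNReal.ofReal (A * (w.length + 1) ^ 2) :=
    fun h2 => h0 fun h3 => h2 (IM.numDimLt_img hy hy' hn hn' π hπ hle h3)
  refine ⟨h1, fun h2 => ?_⟩
  have h3 : NumDimLt y n Δ (n - 1) := by
    by_contra h3
    obtain ⟨A, hA⟩ := h1 h3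
    obtain ⟨w, hw, hlt⟩ := h2 A
    exact absurd hlt (not_lt.2 (hA w hw))
  refine ⟨h3, ?_, fun h4 => ⟨n - 2, h4, ?_⟩⟩
  · rintro ⟨m, hm, ω, E, hω, h0, hind⟩
    exact kappa_lt hy hn hle h3 hm hω h0 hind
  · rwa [show n - 2 + 1 = n - 1 by omega]
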