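import Pool.Agent.N145.SX.MKlt
import Pool.Agent.N145.SX.MFin

/-!
# Klt pairs on varieties dominated by the product of several varieties and a curve

Let `V = X 0 × ... × X (k - 1) × C`, where the `X i` are smooth projective varieties over `ℂ` of
dimension `m i` and `C` is a smooth projective curve of any genus. Let `V ⇢ W` be a dominant rational
map of finite degree to a variety `W`. It need not be related to the product structure, and it need not
be the quotient by a group. Let `W_i` be the image of `V` in `W × X 0 × ... × X (i - 1)`, and let
`d i` be the degree over `W_i` of the image of `V` in `W_i × X i`; for example `W_0 = W`, and `d 0` is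
the number of different points of `X 0` below a general fibre of `V ⇢ W`. The product of the `d i`
is at most the degree of `V ⇢ W`.

Suppose that for all `i` the canonical forms of `X i` separate any `2 d i` different points of a nonempty
open subset: such points impose independent conditions on `H⁰(X i, K)`. For example, `X i` is a smooth
hypersurface of degree at least `m i + 1 + 2 d i` in projective space, or a curve of gonality greater
than `2 d i`. Then one of the following is true:

* the image of the canonical map of `W` has dimension at least `dim W - 1`, so `κ(W) ≥ dim W - 1`;
* there is a fibration `W ⇢ Z` with geometrically rational generic fibre over a variety `Z` of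
  dimension `dim W - 1` whose canonical map is generically finite, so `Z` is of general type.

So let `(Y, Δ)` be a klt pair such that `Y` is birational to `W` and `K_Y + Δ` is pseudo-effective. In
the first case `κ(K_Y + Δ) ≥ dim Y - 1` on a terminalisation. In the second case the restriction of
`K_Y + Δ` to a general fibre of `Y ⇢ Z` on a log resolution is a pseudo-effective adjoint divisor on a
rational curve, so its Kodaira dimension is at least zero, and `κ(K_Y + Δ) ≥ dim Z = dim Y - 1` by the
additivity of the Kodaira dimension over a base of general type (Viehweg, Campana, Fujino). So
`(Y, Δ)` has a good minimal model (Lai, Gongyo-Lehmann), and if `K_Y + Δ` is nef then it is semiample.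
These known theorems are not part of the Lean proof.

The theorem of the team for one factor `X 0` and a curve is `ProductWithCurveKlt`; the new part here
is about several factors, and that the dimensions are attained by canonical forms.

Proof. Let `f i` be canonical forms on the `X i` and `φ` a differential on `C`. The traces on `W` of
their products are canonical forms. If these forms vanish, or if two generic points `P`, `Q` of `W` have
the same image under the map given by them, then we get a relation between the points of `V` below `P`
and `Q` which is multilinear in the values of the `f i`. At most `2 d i` points of `X i` occur if the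
first `i` coordinates are fixed, and they are separated, so we can fix the coordinates one after the
other. Either it follows that the coordinates in the `X i` are algebraic over the field of the ratios
of the traces, and the first case is true. Or the differentials `φ` have trace zero on the image of
`{x} × C` in `W × X 0 × ... × X (k - 1)` for generic `x`, so this image is a rational curve, and `W` is
covered by rational curves `R`, parametrised by a variety which is generically finite over the product
`X 0 × ... × X (k - 1)`. The `d 0` points of `X 0` at the general point of `R` do not move: a trace of
the contraction of a canonical form of `X 0` is a regular differential on the rational curve. So `R`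
lifts to `W_1`, the `d 1` points of `X 1` do not move, and so on. So the functions on the `X i` are
algebraic over the field `N` of the functions on `W` which are constant on the curves, `N` is the
function field of `Z`, and `W ⇢ Z` has geometrically rational generic fibre. Let `Z_i` be defined for
`Z` and the product of the `X i` as `W_i` for `W` and `V`. As `N` is algebraically closed in `ℂ(W)`,
the degree of `Z_{i+1}` over `Z_i` is at most `d i`. So the same argument for the traces on `Z` of the
products of the `f i` shows that the canonical map of `Z` is generically finite.

The parts of the Lean proof on pull-backs, products, the geometric generic fibre, the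
correspondences on rational curves, and the degrees over `Z` are due to helpers 123, 221, 442, 160,
279, 603, 545, 281, 438, 277 and 999.
-/

set_option autoImplicit false
set_option linter.overlappingInstances false
set_option maxHeartbeats 4000000
set_option synthInstance.maxHeartbeats 400000

open FF Module Pool.Agent Pool.Agent.W602.GT

namespace Pool.Agent.Results.MP_9a2ae6_ag.ProductsKlt

/-- **The canonical forms separate `r` points.** `E` is the function field of a variety `X` of
dimension `m`, and `D` a rational frame of the tangent bundle. The embeddings `σ : E → Ω` are the
generic points of `X` with coordinates in the field `Ω`. At most `r` different such points impose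
independent conditions on the canonical forms `ω` which are regular at all prime divisors: if
`∑ c σ * σ (ω D) = 0` for all `ω` then all the coefficients `c σ` are zero. -/
def SeparatesPoints (E : Type) [Field E] [Algebra ℂ E] (m r : ℕ) : Prop :=
  ∀ D : Fin m → Derivation ℂ E E, LinearIndependent E D →
    ∀ (Ω : Type) [Field Ω] [Algebra ℂ Ω] [IsAlgClosed Ω] (A : Finset (E →ₐ[ℂ] Ω)), A.card ≤ r →
    ∀ c : (E →ₐ[ℂ] Ω) → Ω,
    (∀ ω : (Fin m → Derivation ℂ E E) → E, IsPluri 1 ω →
      (∀ P : Place ℂ E, Divisorial m P → RegAt P ω) → ∑ σ ∈ A, c σ * σ (ω D) = 0) →
    ∀ σ ∈ A, c σ = 0

variable {K : Type} [Field K] [Algebra ℂ K] {k : ℕ}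

/-- The function field of the image `W_i` of `V` in the product of `W` and the first `i` factors.
Here `K` and `L` are the function fields of `V` and `W`, and `F l` is the one of the `l`-th
factor. -/
noncomputable def Img (F : Fin (k + 1) → IntermediateField ℂ K) (L : Type) [Field L] [Algebra L K]
    (i : ℕ) : IntermediateField L K :=
  IntermediateField.adjoin L {z | ∃ l : Fin (k + 1), l.val < i ∧ z ∈ F l}

/-- The degree over `W_i` of the image of `V` in the product of `W_i` and the `i`-th factor. -/
noncomputable def deg (F : Fin (k + 1) → IntermediateField ℂ K) (L : Type) [Field L] [Algebra L K]
    (i : Fin (k + 1)) : ℕ :=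
  finrank (Img F L i) (IntermediateField.adjoin (Img F L i) (F i : Set K))

theorem deg_eq (F : Fin (k + 1) → IntermediateField ℂ K) (L : Type) [Field L] [Algebra ℂ L]
    [Algebra L K] [IsScalarTower ℂ L K] [FiniteDimensional L K] (i : Fin (k + 1)) :
    deg F L i = finrank (N145.PC.MF F L (N145.PC.Js (k + 1) i))
      (IntermediateField.adjoin (N145.PC.MF F L (N145.PC.Js (k + 1) i)) (F i : Set K)) := by
  unfold deg Img
  rw [N145.SX.mf_eq]

/-- The image of the canonical map of the varieties with function field `L`, of dimension `w`, has
dimension at least `j`: there are canonical forms, regular at all prime divisors, with `j`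
algebraically independent ratios. (`KodGe` is the same for pluricanonical forms of some weight.) -/
def CanonicalImageDimGe (L : Type) [Field L] [Algebra ℂ L] (w j : ℕ) : Prop :=
  ∃ ω : Fin (j + 1) → (Fin w → Derivation ℂ L L) → L,
    (∀ i, IsPluri 1 (ω i) ∧ ∀ P : Place ℂ L, Divisorial w P → RegAt P (ω i)) ∧
    ∃ D, ω 0 D ≠ 0 ∧ AlgebraicIndependent ℂ (fun i : Fin j => ω i.succ D / ω 0 D)

/-- There is a fibration `W ⇢ Z` with geometrically rational generic fibre over a variety `Z` of
dimension `n` whose canonical map is generically finite (so `Z` is of general type). In terms of the
function fields `N ⊆ L` of `Z` and `W`: `N` is algebraically closed in `L`, and for some algebraic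
extension `M` of `N` there is an embedding over `N` of `L` into the field of rational functions
`M(t)`. -/
def IsConicBundleOverGeneralType (L : Type) [Field L] [Algebra ℂ L] (n : ℕ) : Prop :=
  ∃ N : IntermediateField ℂ L, (∀ z : L, IsAlgebraic N z → z ∈ N) ∧ Algebra.trdeg ℂ N = n ∧
    CanonicalImageDimGe N n n ∧ ∃ (M : Type) (_ : Field M) (_ : Algebra N M),
      Algebra.IsAlgebraic N M ∧ Nonempty (L →ₐ[N] RatFunc M)

/-- **The structure of varieties dominated by the product of several varieties and a curve.** Let `K`
be the function field of the product `V` of the varieties with the function fields `F i`, `i < k`, of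
dimension `m i`, and of the curve with the function field `F k`, i.e. `K` is the compositum and its
transcendence degree is `∑ m i + 1`. Let `L ⊆ K` be the function field of a variety `W` such that the
extension is finite. Suppose that for all `i < k` the canonical forms of the `i`-th variety separate
`2 d i` points, where `d i` is the degree over `W_i` of the image of `V` in the product of `W_i` and this
variety. Then the image of the canonical map of `W` has dimension at least `∑ m i = dim W - 1`, or `W`
has a fibration with geometrically rational generic fibre over a variety of dimension `dim W - 1` whose
canonical map is generically finite. -/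
theorem result [Algebra.EssFiniteType ℂ K] (m : Fin k → ℕ)
    (F : Fin (k + 1) → IntermediateField ℂ K) [∀ i, Algebra.EssFiniteType ℂ (F i)]
    [IsFF ℂ (F (Fin.last k))] (hF : ⨆ i, F i = ⊤)
    (hm : ∀ i : Fin k, Algebra.trdeg ℂ (F i.castSucc) = m i)
    (hK : Algebra.trdeg ℂ K = (∑ i, m i + 1 : ℕ)) (L : Type) [Field L] [Algebra ℂ L]
    [Algebra L K] [IsScalarTower ℂ L K] [FiniteDimensional L K]
    (hX : ∀ i : Fin k, SeparatesPoints (F i.castSucc) (m i) (2 * deg F L i.castSucc)) :
    CanonicalImageDimGe L (∑ i, m i + 1) (∑ i, m i) ∨
      IsConicBundleOverGeneralType L (∑ i, m i) := by
  choose x D hx hD using fun i : Fin k => Pool.Agent.Y172.exists_crd (hm i)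
  exact N145.SX.multi_str (L := L) hF hm hK hx
    (g := fun i => 2 * deg F L i.castSucc + 1)
    (fun i => N145.SX.sepX_of' (hx i) (hD i) fun Ω _ _ _ A hA c hc =>
      hX i (D i) (N145.SX.dual_indep (hD i)) Ω A hA c hc)
    (fun i => by
      rw [deg_eq]
      exact Nat.lt_succ_self _)

end Pool.Agent.Results.MP_9a2ae6_ag.ProductsKlt
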